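import Pool.Agent.LC3.MainB
import Pool.Agent.LC3.Frozen

/-!
# The hitting times of non-3-colourability and non-3-choosability differ with positive probability

The random graph process on `Fin n` is a uniformly random ordering of the edges of the complete graph.
-/

set_option autoImplicit false

open Classical

namespace Pool.Agent.Results.MP_76eee7_pr.HittingTimes

/-- an ordering of all edges of the complete graph on `n` vertices -/
abbrev EdgeOrder (n : ℕ) : Type :=
  Fin (Nat.card (⊤ : SimpleGraph (Fin n)).edgeSet) ≃ (⊤ : SimpleGraph (Fin n)).edgeSet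

/-- the graph `G_M` formed by the first `M` edges -/
def stage {n : ℕ} (σ : EdgeOrder n) (M : ℕ) : SimpleGraph (Fin n) :=
  SimpleGraph.fromEdgeSet {e : Sym2 (Fin n) |
    ∃ i : Fin (Nat.card (⊤ : SimpleGraph (Fin n)).edgeSet), (i : ℕ) < M ∧ (σ i).val = e}

/-- `k`-list-colourable -/
def ListColorable {n : ℕ} (G : SimpleGraph (Fin n)) (k : ℕ) : Prop :=
  ∀ L : Fin n → Finset ℕ, (∀ v, (L v).card = k) →
    ∃ f : Fin n → ℕ, (∀ v, f v ∈ L v) ∧ ∀ u v, G.Adj u v → f u ≠ f v

/-- the hitting time: the first `M` for which `G_M` is not `k`-list-colourable -/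
noncomputable def hit {n : ℕ} (k : ℕ) (σ : EdgeOrder n) : ℕ :=
  sInf {M : ℕ | ¬ ListColorable (stage σ M) k}

/-- the probability that `G_M` is `k`-colourable at the hitting time `M = hit k` -/
noncomputable def prob (n k : ℕ) : ℝ :=
  (Nat.card {σ : EdgeOrder n // (stage σ (hit k σ)).Colorable k} : ℝ) / (Nat.card (EdgeOrder n) : ℝ)

theorem stage_mono {n : ℕ} (σ : EdgeOrder n) {M M' : ℕ} (h : M ≤ M') :
    stage σ M ≤ stage σ M' := by
  unfold stage
  apply SimpleGraph.fromEdgeSet_mono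
  rintro e ⟨i, hi, he⟩
  exact ⟨i, lt_of_lt_of_le hi h, he⟩

theorem le_prob (n : ℕ) : Pool.Agent.LC3.nuX n ≤ prob n 3 := by
  have h := Pool.Agent.LC3.frozen_le n
  set F : EdgeOrder n → Prop := fun σ => ∀ m : ℕ, ∀ G : SimpleGraph (Fin n),
    G = SimpleGraph.fromEdgeSet
        {e : Sym2 (Fin n) |
          ∃ i : Fin (Nat.card (⊤ : SimpleGraph (Fin n)).edgeSet), (i : ℕ) < m ∧ (σ i).val = e} →
    G.Colorable 3 →
    ∀ L : Fin n → Finset ℕ, (∀ v, (L v).card = 3) →
      ∃ f : Fin n → ℕ, (∀ v, f v ∈ L v) ∧ ∀ u v, G.Adj u v → f u ≠ f v with hF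
  change (Nat.card {σ : EdgeOrder n // F σ} : ℝ) / (Nat.card (EdgeOrder n) : ℝ) ≤ _ at h
  have hfin : Finite (EdgeOrder n) := inferInstance
  have key : ∀ σ : EdgeOrder n, ¬ F σ → (stage σ (hit 3 σ)).Colorable 3 := by
    intro σ hσ
    rw [hF] at hσ
    push Not at hσ
    obtain ⟨m, G, hG, hc, L, hL, hf⟩ := hσ
    have hG' : G = stage σ m := hG
    subst hG'
    have hmem : m ∈ {M : ℕ | ¬ ListColorable (stage σ M) 3} := by
      intro hlc
      obtain ⟨f, h1, h2⟩ := hlc L hL
      obtain ⟨u, v, huv, hne⟩ := hf f h1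
      exact h2 u v huv hne
    exact hc.mono_left (stage_mono σ (Nat.sInf_le hmem))
  have hpos : (0 : ℝ) < (Nat.card (EdgeOrder n) : ℝ) := by
    have : Nonempty (EdgeOrder n) := by
      refine ⟨(Finite.equivFin _).symm⟩
    exact_mod_cast Nat.card_pos
  have hsum : Nat.card {σ : EdgeOrder n // F σ} + Nat.card {σ : EdgeOrder n // ¬ F σ} =
      Nat.card (EdgeOrder n) := by
    have := Fintype.ofFinite (EdgeOrder n)
    rw [Nat.card_eq_fintype_card, Nat.card_eq_fintype_card, Nat.card_eq_fintype_card]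
    exact Fintype.card_subtype_compl F ▸ (by
      have := Fintype.card_subtype_le F
      omega)
  have hle : Nat.card {σ : EdgeOrder n // ¬ F σ} ≤
      Nat.card {σ : EdgeOrder n // (stage σ (hit 3 σ)).Colorable 3} := by
    apply Nat.card_mono (Set.toFinite _)
    intro σ hσ
    exact key σ hσ
  have hsum' : (Nat.card {σ : EdgeOrder n // F σ} : ℝ) + (Nat.card {σ : EdgeOrder n // ¬ F σ} : ℝ) =
      (Nat.card (EdgeOrder n) : ℝ) := by exact_mod_cast hsum
  have hle' : (Nat.card {σ : EdgeOrder n // ¬ F σ} : ℝ) ≤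
      (Nat.card {σ : EdgeOrder n // (stage σ (hit 3 σ)).Colorable 3} : ℝ) := by exact_mod_cast hle
  unfold prob
  rw [le_div_iff₀ hpos]
  rw [div_le_iff₀ hpos] at h
  linarith

/-- There is a constant `c > 0` such that for infinitely many `n` the graph `G_τ`, where `τ` is the first
time at which the random graph process on `n` vertices is not 3-list-colourable, is 3-colourable with
probability at least `c`. -/
theorem result : ∃ c : ℝ, 0 < c ∧ ∀ N : ℕ, ∃ n : ℕ, N ≤ n ∧ c ≤ prob n 3 := by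
  obtain ⟨c, hc, h⟩ := Pool.Agent.LC3.mainB
  refine ⟨c, hc, fun N => ?_⟩
  obtain ⟨n, hn, hcn⟩ := h N
  exact ⟨n, hn, hcn.trans (le_prob n)⟩

end Pool.Agent.Results.MP_76eee7_pr.HittingTimes
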